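import Mathlib
import Pool.Agent.GMF.Fin

set_option autoImplicit false

/-!
# Only finitely many difference sets with multiplier `-1` have parameters of McFarland's kind
-/

namespace Pool.Agent.Results.MP_d994c8_co.McFarlandFinite

open Finset

/-- Let `T = (v, k, lam)` be the parameters of a nontrivial difference set with multiplier `-1` in a
finite abelian group, with `v ≠ 4 n` and `n = k - lam = m ^ 2`.  Only finitely many such `T` satisfy
one of the following: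
(i) `v = 2 ^ c * p * m` with a prime `p`;
(ii) `k` or `v - k` is `(2 ^ c - 1) * m`, where `2 ^ c` is the exact power of `2` dividing `v`;
(iii) `v = q ^ (s + 1) * (1 + (1 + q + ... + q ^ s))` and `n = q ^ (2 s)` with a prime power `q` and
`s ≥ 1` (McFarland's parameters and their complements). -/
theorem result : {T : ℕ × ℕ × ℕ | ∃ (G : Type) (_ : AddCommGroup G) (_ : Fintype G)
    (_ : DecidableEq G) (D : Finset G) (m : ℕ),
    Fintype.card G = T.1 ∧ D.card = T.2.1 ∧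
    (∀ g : G, g ≠ 0 → ((D ×ˢ D).filter fun x => x.1 - x.2 = g).card = T.2.2) ∧
    (∃ a : G, D.image (fun d => -d) = D.image (fun d => d + a)) ∧
    1 < T.2.1 ∧ T.2.1 < T.1 - 1 ∧ T.1 ≠ 4 * (T.2.1 - T.2.2) ∧ T.2.1 - T.2.2 = m ^ 2 ∧
    ((∃ p c : ℕ, p.Prime ∧ T.1 = 2 ^ c * p * m) ∨
      (∃ c : ℕ, 2 ^ c ∣ T.1 ∧ ¬ 2 ^ (c + 1) ∣ T.1 ∧
        (T.2.1 = (2 ^ c - 1) * m ∨ T.1 - T.2.1 = (2 ^ c - 1) * m)) ∨
      (∃ q s : ℕ, IsPrimePow q ∧ 1 ≤ s ∧ m = q ^ s ∧
        T.1 = q ^ (s + 1) * (1 + ∑ i ∈ range (s + 1), q ^ i)))}.Finite := by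
  obtain ⟨B, hB⟩ := Pool.Agent.GMF.bound_v
  refine ((Set.finite_le_nat B).prod ((Set.finite_le_nat B).prod
    (Set.finite_le_nat (B * B)))).subset ?_
  rintro ⟨v, k, lam⟩ ⟨G, i1, i2, i3, D, m, hv, hk, hD, hneg, h1, h2, h4n, hm, hcase⟩
  simp only at hv hk hD h1 h2 h4n hm hcase
  have hvB : v ≤ B := hB G D v k lam m hv hk hD hneg h1 h2 h4n hm hcase
  have hkB : k ≤ B := by omega
  refine ⟨hvB, hkB, ?_⟩
  have hG : Nontrivial G := by
    rw [← Fintype.one_lt_card_iff_nontrivial, hv]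
    omega
  obtain ⟨g, hg⟩ := exists_ne (0 : G)
  show lam ≤ B * B
  rw [← hD g hg]
  refine (card_filter_le _ _).trans ?_
  rw [card_product, hk]
  exact Nat.mul_le_mul hkB hkB

end Pool.Agent.Results.MP_d994c8_co.McFarlandFinite
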