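import Mathlib
import Pool.Agent.DSP.Main

set_option autoImplicit false

/-!
# Parameters of abelian difference sets with multiplier `-1`
-/

namespace Pool.Agent.Results.MP_d994c8_co.PrimePower

open Finset

/-- A nontrivial abelian difference set with multiplier `-1` has `v = 4 n` (and then the exponent
in `n` of every prime larger than `3` is a multiple of `4`), or the parameters of McFarland's
example or of its complement, or there is ONE odd prime `p` such that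
`n = p ^ (2 r)`, `v = 2 ^ c * p ^ (r + t)` and, up to complementation, `k = p ^ r (2 ^ c b + 1)`,
where `10 ^ 8 < n`, `6 ≤ r`, `8 ≤ r + t`, `1 ≤ t ≤ r / 2`, `4 p ^ (r - t) < 2 ^ c`; `r` is even and
`p - 1` divides `b` if `p ≠ 3`, `r ≥ 9` if `p = 3`, `r + t` is even if `p = 3 mod 4`; and
`a + b = p ^ t`, `x + y = 2 ^ (c - 1)`, `a x - b y = 1`, `a x + b y = p ^ r`; moreover the exponent
of the group divides `2 p ^ t`. -/
theorem result {G : Type*} [AddCommGroup G] [Fintype G] [DecidableEq G] (D : Finset G)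
    (v k lam n : ℕ) (hv : Fintype.card G = v) (hk : D.card = k) (hn : n = k - lam)
    (hD : ∀ g : G, g ≠ 0 → ((D ×ˢ D).filter fun x => x.1 - x.2 = g).card = lam)
    (hneg : ∃ a : G, D.image (fun d => -d) = D.image (fun d => d + a))
    (h1 : 1 < k) (h2 : k < v - 1) :
    (v = 4 * n ∧ ∀ q : ℕ, q.Prime → 3 < q → 4 ∣ padicValNat q n) ∨
      (v, k, lam) = (4000, 775, 150) ∨ (v, k, lam) = (4000, 3225, 2600) ∨
      ∃ p r t c a b x y : ℕ, p.Prime ∧ p ≠ 2 ∧ n = p ^ (2 * r) ∧ v = 2 ^ c * p ^ (r + t) ∧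
        (k = p ^ r * (2 ^ c * b + 1) ∨ v - k = p ^ r * (2 ^ c * b + 1)) ∧
        10 ^ 8 < n ∧ 6 ≤ r ∧ 8 ≤ r + t ∧ 1 ≤ t ∧ 2 * t ≤ r ∧ 4 * p ^ (r - t) < 2 ^ c ∧
        (p ≠ 3 → 2 ∣ r ∧ (p - 1) ∣ b) ∧ (p % 4 = 3 → 2 ∣ r + t) ∧ (p = 3 → 9 ≤ r) ∧
        a + b = p ^ t ∧ x + y = 2 ^ (c - 1) ∧ a * x = b * y + 1 ∧ a * x + b * y = p ^ r ∧
        ∀ g : G, (2 * p ^ t) • g = 0 :=
  Pool.Agent.DSP.main D v k lam n hv hk hn hD hneg h1 h2

end Pool.Agent.Results.MP_d994c8_co.PrimePower
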