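import Mathlib
import Pool.Agent.DSU.Main

set_option autoImplicit false

/-!
# The exceptional parameters of abelian difference sets with multiplier `-1` are unique in their order
-/

namespace Pool.Agent.Results.MP_d994c8_co.UniqueInOrder

open Finset

/-- Two nontrivial difference sets with multiplier `-1` in finite abelian groups, both with
`v ≠ 4 n`: if the orders `n = k - lam` are equal, or if the orders `v` of the groups are equal, then
the parameters are equal or complementary. -/
theorem result {G G' : Type*} [AddCommGroup G] [Fintype G] [DecidableEq G] [AddCommGroup G']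
    [Fintype G'] [DecidableEq G'] (D : Finset G) (D' : Finset G') (v k lam v' k' lam' : ℕ)
    (hv : Fintype.card G = v) (hk : D.card = k)
    (hD : ∀ g : G, g ≠ 0 → ((D ×ˢ D).filter fun x => x.1 - x.2 = g).card = lam)
    (hneg : ∃ a : G, D.image (fun d => -d) = D.image (fun d => d + a))
    (h1 : 1 < k) (h2 : k < v - 1) (h4 : v ≠ 4 * (k - lam))
    (hv' : Fintype.card G' = v') (hk' : D'.card = k')
    (hD' : ∀ g : G', g ≠ 0 → ((D' ×ˢ D').filter fun x => x.1 - x.2 = g).card = lam')
    (hneg' : ∃ a : G', D'.image (fun d => -d) = D'.image (fun d => d + a))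
    (h1' : 1 < k') (h2' : k' < v' - 1) (h4' : v' ≠ 4 * (k' - lam'))
    (h : k - lam = k' - lam' ∨ v = v') :
    v = v' ∧ ((k' = k ∧ lam' = lam) ∨ (k' + k = v ∧ lam' + 2 * k = v + lam)) := by
  have o := Pool.Agent.DSU.out D v k lam hv hk hD hneg h1 h2 h4
  have o' := Pool.Agent.DSU.out D' v' k' lam' hv' hk' hD' hneg' h1' h2' h4'
  exact Pool.Agent.DSU.uniq (by omega) (by omega) (Pool.Agent.DSU.out_pos o)
    (Pool.Agent.DSU.out_pos o') o o' h

end Pool.Agent.Results.MP_d994c8_co.UniqueInOrder
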